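import Pool.Agent.Q223.Mix.Walk

/-!
# MP_261efc_co: averaged mixing matrices of paths that never have rank one
-/

namespace Pool.Agent.Results.MP_261efc_co.RankAtLeastTwo

open MeasureTheory

open Classical in
/-- `U(t) = exp(i t A)` for the adjacency matrix `A` of the path `P_n`. -/
noncomputable def walk (n : ℕ) (t : ℝ) : Matrix (Fin n) (Fin n) ℂ :=
  NormedSpace.exp ((Complex.I * (t : ℂ)) • (SimpleGraph.pathGraph n).adjMatrix ℂ)

/-- The mixing matrix `M(t)`, with entries `|U(t)_{ab}|^2`. -/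
noncomputable def mixing (n : ℕ) (t : ℝ) : Matrix (Fin n) (Fin n) ℝ :=
  Matrix.of fun a b => ‖walk n t a b‖ ^ 2

/-- The average of `M` against the density `f`. -/
noncomputable def averaged (n : ℕ) (f : ℝ → ℝ) : Matrix (Fin n) (Fin n) ℝ :=
  Matrix.of fun a b => ∫ s, f s * mixing n s a b

/-- The average of `M` against the probability measure `μ`. -/
noncomputable def averagedMeasure (n : ℕ) (μ : Measure ℝ) : Matrix (Fin n) (Fin n) ℝ :=
  Matrix.of fun a b => ∫ s, mixing n s a b ∂μ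

/-- For `n ≥ 5` with `n + 1` divisible by `6` (`n ≠ 5`), by `15` or by `21`, no density and no
probability measure averages the mixing matrices of `P_n` to a matrix of rank at most one.  In
particular it is not true that a suitable density exists for every `n ≥ 5`. -/
theorem result :
    (∀ n : ℕ, 5 ≤ n → ((6 ∣ n + 1 ∧ n ≠ 5) ∨ 15 ∣ n + 1 ∨ 21 ∣ n + 1) →
      (∀ f : ℝ → ℝ, (∀ s, 0 ≤ f s) → ∫ s, f s = 1 → 2 ≤ (averaged n f).rank) ∧
      (∀ μ : Measure ℝ, IsProbabilityMeasure μ → 2 ≤ (averagedMeasure n μ).rank)) ∧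
    ¬ (∀ n : ℕ, 5 ≤ n → ∃ f : ℝ → ℝ, Measurable f ∧ (∀ s, 0 ≤ f s) ∧ ∫ s, f s = 1 ∧
      (averaged n f).rank = 1) := by
  classical
  have hA : ∀ n : ℕ, ∀ a b : Fin n, (SimpleGraph.pathGraph n).adjMatrix ℂ a b =
      if a.val + 1 = b.val ∨ b.val + 1 = a.val then 1 else 0 := by
    intro n a b
    rw [SimpleGraph.adjMatrix_apply]
    exact if_congr SimpleGraph.pathGraph_adj rfl rfl
  have h : ∀ n : ℕ, 5 ≤ n → ((6 ∣ n + 1 ∧ n ≠ 5) ∨ 15 ∣ n + 1 ∨ 21 ∣ n + 1) →
      (∀ f : ℝ → ℝ, (∀ s, 0 ≤ f s) → ∫ s, f s = 1 → 2 ≤ (averaged n f).rank) ∧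
      (∀ μ : Measure ℝ, IsProbabilityMeasure μ → 2 ≤ (averagedMeasure n μ).rank) := by
    intro n hn hd
    constructor
    · intro f _ hf
      exact Q223.Mix.main n hn hd _ (hA n) volume f hf _ (fun a b => rfl)
    · intro μ hμ
      refine Q223.Mix.main n hn hd _ (hA n) μ (fun _ => 1) (by simp) _ (fun a b => ?_)
      simp only [one_mul]
      rfl
  refine ⟨h, fun hall => ?_⟩
  obtain ⟨f, -, hf0, hf1, hr⟩ := hall 11 (by norm_num)
  have := (h 11 (by norm_num) (Or.inl ⟨by norm_num, by norm_num⟩)).1 f hf0 hf1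
  omega

end Pool.Agent.Results.MP_261efc_co.RankAtLeastTwo
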